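import Pool.Agent.SelbergD1.F4aNonInv
import Pool.Agent.SelbergD1.F4bScale

/-!
# `g (p z)` is not `Γ(N)`-invariant, for every `p > 1` prime to `N`

If `g` and `g (p ·)` are `Γ(N)`-invariant, so are all `g (p ^ k ·)`; then `g` is invariant under the lower
unipotent matrices with entries `N / p ^ k`, so under all, and is constant.
-/

open Set MeasureTheory UpperHalfPlane CongruenceSubgroup
open scoped MatrixGroups
open Pool.Agent.Selberg

namespace Pool.Agent.DCT

open Pool.Agent.SelbergD1.F4aNonInvAux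

/-- invariance under `Γ(N)` -/
def Inv (N : ℕ) (h : ℂ → ℂ) : Prop := ∀ γ ∈ Gamma N, ∀ z : ℍ, h ((γ • z : ℍ) : ℂ) = h (z : ℂ)

lemma sl_apply (γ : SL(2, ℤ)) (z : ℍ) :
    ((γ • z : ℍ) : ℂ) = ((γ 0 0 : ℂ) * z + (γ 0 1 : ℂ)) / ((γ 1 0 : ℂ) * z + (γ 1 1 : ℂ)) := by
  rw [coe_specialLinearGroup_apply]
  simp

lemma step {N p : ℕ} (hp : 0 < p) (hcop : p.Coprime N) {h : ℂ → ℂ} (h0 : Inv N h)
    (h1 : Inv N (fun w => h ((p : ℂ) * w))) : Inv N (fun w => h ((p : ℂ) ^ 2 * w)) := by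
  have hp0 : (0 : ℝ) < p := by exact_mod_cast hp
  have hp1 : (p : ℂ) ≠ 0 := by exact_mod_cast hp.ne'
  obtain ⟨x, y, hxy⟩ : IsCoprime ((N : ℤ) ^ 2) (p : ℤ) := by
    rw [← Nat.cast_pow, Nat.isCoprime_iff_coprime]
    exact (Nat.Coprime.pow_right 2 hcop).symm
  have hd1 : Matrix.det !![(1 : ℤ), -(N * x); (N : ℤ), p * y] = 1 := by
    rw [Matrix.det_fin_two]; simp; linear_combination hxy
  have hd2 : Matrix.det !![(p : ℤ), -(N * x); (N : ℤ), y] = 1 := by
    rw [Matrix.det_fin_two]; simp; linear_combination hxy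
  set γ : SL(2, ℤ) := ⟨!![(1 : ℤ), -(N * x); (N : ℤ), p * y], hd1⟩ with hγ
  set M : SL(2, ℤ) := ⟨!![(p : ℤ), -(N * x); (N : ℤ), y], hd2⟩ with hM
  have hmem : γ ∈ Gamma N := by
    rw [mem_Gamma_iff]
    simp only [hγ, Matrix.of_apply, Matrix.cons_val', Matrix.cons_val_zero, Matrix.cons_val_one,
      Matrix.cons_val_fin_one]
    refine ⟨by simp, ?_, dvd_refl _, ?_⟩
    · exact (dvd_mul_right _ _).neg_right
    · refine ⟨-(N * x), ?_⟩
      linear_combination hxy
  have key : ∀ z : ℍ, h ((M • z : ℍ) : ℂ) = h ((p : ℂ) ^ 2 * (z : ℂ)) := by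
    intro z
    have hz : 0 < ((p : ℂ) * (z : ℂ)).im := by
      have : ((p : ℂ) * (z : ℂ)).im = p * z.im := by simp
      rw [this]; have := z.im_pos; positivity
    have h2 := h1 γ hmem ⟨(p : ℂ) * z, hz⟩
    have e1 : ((⟨(p : ℂ) * z, hz⟩ : ℍ) : ℂ) = (p : ℂ) * z := rfl
    simp only [e1] at h2
    rw [show (p : ℂ) ^ 2 * (z : ℂ) = (p : ℂ) * ((p : ℂ) * z) by ring, ← h2]
    congr 1
    rw [sl_apply, sl_apply, e1]
    simp only [hM, hγ, Matrix.of_apply, Matrix.cons_val', Matrix.cons_val_zero, Matrix.cons_val_one,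
      Matrix.cons_val_fin_one]
    push_cast
    have h3 : (N : ℂ) * ((p : ℂ) * z) + (p : ℂ) * y = (p : ℂ) * ((N : ℂ) * z + y) := by ring
    rw [h3, mul_div_assoc', mul_div_mul_left _ _ hp1]
    congr 1
    ring
  intro γ' hγ' z
  simp only
  rw [← key, ← key]
  have h3 : (M • γ' • z : ℍ) = (M * γ' * M⁻¹) • (M • z) := by
    rw [← mul_smul, ← mul_smul]
    congr 1
    group
  rw [h3]
  exact h0 _ ((Gamma_normal N).conj_mem _ hγ' M) _

lemma all_inv {N p : ℕ} (hp : 0 < p) (hcop : p.Coprime N) {g : ℂ → ℂ} (h0 : Inv N g)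
    (h1 : Inv N (fun w => g ((p : ℂ) * w))) : ∀ k : ℕ, Inv N (fun w => g ((p : ℂ) ^ k * w)) := by
  intro k
  induction k using Nat.twoStepInduction with
  | zero => simpa using h0
  | one => simpa using h1
  | more k ih1 ih2 =>
    have h2 := step hp hcop ih1 (by
      have : (fun w : ℂ => (fun w => g ((p : ℂ) ^ k * w)) ((p : ℂ) * w)) = fun w => g ((p : ℂ) ^ (k + 1) * w) := by
        funext w; simp only; congr 1; ring
      rw [this]; exact ih2)
    have : (fun w : ℂ => (fun w => g ((p : ℂ) ^ k * w)) ((p : ℂ) ^ 2 * w)) = fun w => g ((p : ℂ) ^ (k + 2) * w) := by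
      funext w; simp only; congr 1; ring
    rw [this] at h2
    exact h2

/-- an eigenform of `Γ(N)`, eigenvalue not 0, which is invariant under a dense group of lower unipotent matrices is 0 -/
theorem zero_of_dense {N : ℕ} (hN : 0 < N) {μ : ℝ} (hμ : μ ≠ 0) {g : ℂ → ℂ}
    (hg : IsEigenform (Gamma N) μ g) (hdense : Dense (grp g : Set ℝ)) (z : ℍ) : g (z : ℂ) = 0 := by
  obtain ⟨hsm, hinv, hpde, -⟩ := hg
  have hcont : ContinuousOn g {w : ℂ | 0 < w.im} := hsm.continuousOn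
  have hall : ∀ (t : ℝ) (w : ℂ), 0 < w.im → g (w / ((t : ℂ) * w + 1)) = g w :=
    fun t w hw => all_mem hcont hdense t hw
  have hT : ∀ w : ℂ, 0 < w.im → g (w + ((N : ℝ) : ℂ)) = g w := by
    intro w hw
    let γ : SL(2, ℤ) := ⟨!![1, (N : ℤ); 0, 1], by simp [Matrix.det_fin_two]⟩
    have hγ : γ ∈ Gamma N := by
      rw [Gamma_mem]
      simp [γ]
    have h1 := hinv γ hγ ⟨w, hw⟩
    rw [coe_specialLinearGroup_apply] at h1
    change _ = g w at h1
    rw [← h1]
    congr 1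
    change _ = ((((algebraMap ℤ ℝ) 1 : ℝ) * w + ((algebraMap ℤ ℝ) N : ℝ)) /
      (((algebraMap ℤ ℝ) 0 : ℝ) * w + ((algebraMap ℤ ℝ) 1 : ℝ)) : ℂ)
    simp
  have hNR : (0 : ℝ) < N := by exact_mod_cast hN
  have hconst : ∀ z z' : ℂ, 0 < z.im → 0 < z'.im → g z = g z' := by
    intro z z' hz hz'
    have hz0 : z ≠ 0 := by
      rintro rfl
      simp at hz
    have hz0' : z' ≠ 0 := by
      rintro rfl
      simp at hz'
    rw [eq_phi hall hz, eq_phi hall hz']
    have hy : 0 < z.im / Complex.normSq z := div_pos hz (Complex.normSq_pos.2 hz0)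
    have hy' : 0 < z'.im / Complex.normSq z' := div_pos hz' (Complex.normSq_pos.2 hz0')
    set y := z.im / Complex.normSq z
    set y' := z'.im / Complex.normSq z'
    have hv : 0 < 1 / ((N : ℝ) ^ 2 * (y + y')) := by positivity
    rw [const hNR hall hT hy hv, const hNR hall hT hy' hv]
    · rw [mul_one_div, div_le_one (by positivity)]
      have : 0 < (N : ℝ) ^ 2 := by positivity
      nlinarith
    · rw [mul_one_div, div_le_one (by positivity)]
      have : 0 < (N : ℝ) ^ 2 := by positivity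
      nlinarith
  have h1 := hpde z
  have hzim : 0 < z.im := z.im_pos
  have d1 : (fun t : ℝ => g ((t : ℂ) + (z.im : ℂ) * Complex.I)) = fun _ => g z := by
    funext t
    apply hconst
    · simpa using hzim
    · exact hzim
  have d2 : ∀ t : ℝ, 0 < t → (fun t : ℝ => g ((z.re : ℂ) + (t : ℂ) * Complex.I)) t = g z := by
    intro t ht
    apply hconst
    · simpa using ht
    · exact hzim
  have d3 : (fun s : ℝ => deriv (fun t : ℝ => g ((z.re : ℂ) + (t : ℂ) * Complex.I)) s) =ᶠ[nhds z.im]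
      fun _ => 0 := by
    filter_upwards [lt_mem_nhds hzim] with s hs
    have h2 : (fun t : ℝ => g ((z.re : ℂ) + (t : ℂ) * Complex.I)) =ᶠ[nhds s] fun _ => g z := by
      filter_upwards [lt_mem_nhds hs] with t ht
      exact d2 t ht
    rw [h2.deriv_eq]
    simp
  rw [d3.deriv_eq, d1] at h1
  simp at h1
  rcases h1 with h2 | h2
  · exact absurd h2 hμ
  · exact h2

theorem noninv {N p : ℕ} (hN : 0 < N) (hp : 1 < p) (hcop : p.Coprime N) {μ : ℝ} (hμ : μ ≠ 0) {g : ℂ → ℂ}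
    (hg : IsEigenform (Gamma N) μ g) (hne : ∃ z : ℍ, g (z : ℂ) ≠ 0) : ¬ Inv N (fun w => g ((p : ℂ) * w)) := by
  intro h1
  have hp0 : (0 : ℝ) < p := by exact_mod_cast (by omega : 0 < p)
  have hall := all_inv (by omega) hcop (h0 := hg.2.1) h1
  have hmem : ∀ k : ℕ, ((N : ℝ) / (p : ℝ) ^ k) ∈ grp g := by
    intro k w hw
    set P : ℝ := (p : ℝ) ^ k with hP
    have hP0 : 0 < P := by positivity
    have hPc : ((p : ℂ) ^ k) = (P : ℂ) := by rw [hP]; push_cast; rfl
    have hP0' : (P : ℂ) ≠ 0 := by exact_mod_cast hP0.ne'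
    let γ : SL(2, ℤ) := ⟨!![1, 0; (N : ℤ), 1], by simp [Matrix.det_fin_two]⟩
    have hγ : γ ∈ Gamma N := by
      rw [Gamma_mem]
      simp [γ]
    have hwq : 0 < (w / (P : ℂ)).im := by
      rw [Complex.div_ofReal_im]
      exact div_pos hw hP0
    have h1 := hall k γ hγ ⟨w / P, hwq⟩
    simp only at h1
    rw [sl_apply] at h1
    simp only [γ, Matrix.of_apply, Matrix.cons_val', Matrix.cons_val_zero, Matrix.cons_val_one,
      Matrix.cons_val_fin_one] at h1
    have h2 : (P : ℂ) * ((⟨w / P, hwq⟩ : ℍ) : ℂ) = w := by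
      change (P : ℂ) * (w / P) = w
      field_simp
    rw [hPc, h2] at h1
    rw [← h1]
    congr 1
    push_cast
    rw [one_mul, add_zero, ← mul_div_assoc, mul_div_cancel₀ _ hP0', mul_div_assoc', div_mul_eq_mul_div]
  have hdense : Dense (grp g : Set ℝ) := by
    apply AddSubgroup.dense_of_not_isolated_zero
    intro ε hε
    obtain ⟨k, hk⟩ := pow_unbounded_of_one_lt ((N : ℝ) / ε) (show (1 : ℝ) < p by exact_mod_cast hp)
    refine ⟨(N : ℝ) / (p : ℝ) ^ k, hmem k, div_pos (by exact_mod_cast hN) (by positivity), ?_⟩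
    rw [div_lt_iff₀ (by positivity)]
    rw [div_lt_iff₀ hε] at hk
    nlinarith
  obtain ⟨z, hz⟩ := hne
  exact hz (zero_of_dense hN hμ hg hdense z)

end Pool.Agent.DCT
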