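import Pool.Agent.DCT.Trans

/-!
# Multiplicity at least `p` at level `N p`

If `Γ(N)` has an eigenvalue `μ ≠ 0`, then for each prime `p` not dividing `N` the group `Γ(N p)` has it with
multiplicity at least `p`: the `p + 1` translates of `g (p z)` are permuted by `Γ(N)` like the points of
`P¹(F_p)`; a relation between `p` of them would make `g (p z)` invariant under `Γ(N)`.
-/

open Set MeasureTheory UpperHalfPlane CongruenceSubgroup
open scoped MatrixGroups
open Pool.Agent.Selberg Pool.Agent.SelbergND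

namespace Pool.Agent.DCT

section
variable {N p : ℕ} [Fact p.Prime]

/-- reduction modulo `p` -/
noncomputable def rd (p : ℕ) : SL(2, ℤ) →* GL (Fin 2) (ZMod p) :=
  (Matrix.SpecialLinearGroup.toGL : SL(2, ZMod p) →* GL (Fin 2) (ZMod p)).comp
    (Matrix.SpecialLinearGroup.map (Int.castRingHom (ZMod p)))

lemma rd_apply (γ : SL(2, ℤ)) (i j : Fin 2) : (rd p γ) i j = ((γ i j : ℤ) : ZMod p) := by
  simp [rd]

noncomputable instance : Fintype (OnePoint (ZMod p)) := inferInstanceAs (Fintype (Option (ZMod p)))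

lemma N_ne (hcop : p.Coprime N) : (N : ZMod p) ≠ 0 := by
  intro h
  rw [ZMod.natCast_eq_zero_iff] at h
  have h1 := Nat.dvd_gcd (dvd_refl p) h
  rw [hcop.gcd_eq_one] at h1
  exact (Fact.out : p.Prime).one_lt.ne' (Nat.dvd_one.mp h1)

lemma exists_rep (hcop : p.Coprime N) (x : OnePoint (ZMod p)) :
    ∃ γ ∈ Gamma N, rd p γ • (OnePoint.infty : OnePoint (ZMod p)) = x := by
  have hN := N_ne (N := N) hcop
  induction x using OnePoint.rec with
  | infty => exact ⟨1, one_mem _, by simp⟩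
  | coe k =>
    set j : ℤ := (((k - (N : ZMod p)⁻¹) * (N : ZMod p)⁻¹).val : ℤ) with hj
    have hj' : (j : ZMod p) = (k - (N : ZMod p)⁻¹) * (N : ZMod p)⁻¹ := by
      rw [hj]; push_cast; exact ZMod.natCast_zmod_val _
    have hd : Matrix.det !![1 + j * (N : ℤ) ^ 2, j * N; (N : ℤ), 1] = 1 := by
      rw [Matrix.det_fin_two]; simp; ring
    let M : SL(2, ℤ) := ⟨!![1 + j * (N : ℤ) ^ 2, j * N; (N : ℤ), 1], hd⟩
    have m00 : M 0 0 = 1 + j * (N : ℤ) ^ 2 := rfl
    have m01 : M 0 1 = j * N := rfl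
    have m10 : M 1 0 = (N : ℤ) := rfl
    have m11 : M 1 1 = 1 := rfl
    refine ⟨M, ?_, ?_⟩
    · rw [mem_Gamma_iff, m00, m01, m10, m11]
      exact ⟨⟨j * N, by ring⟩, ⟨j, by ring⟩, dvd_refl _, by simp⟩
    · rw [OnePoint.smul_infty_eq_ite, rd_apply, rd_apply, m00, m10]
      push_cast
      rw [if_neg hN, hj']
      congr 1
      field_simp
      ring

/-- the translate of `u` attached to a point -/
noncomputable def vv (hcop : p.Coprime N) (u : ℂ → ℂ) (x : OnePoint (ZMod p)) (z : ℍ) : ℂ :=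
  u (((exists_rep hcop x).choose⁻¹ • z : ℍ) : ℂ)

variable {u : ℂ → ℂ}

lemma vv_eq (hcop : p.Coprime N) (hu : ∀ γ ∈ Gamma N ⊓ Gamma0 p, ∀ z : ℍ, u ((γ • z : ℍ) : ℂ) = u (z : ℂ))
    {x : OnePoint (ZMod p)} {γ : SL(2, ℤ)} (hγ : γ ∈ Gamma N)
    (hx : rd p γ • (OnePoint.infty : OnePoint (ZMod p)) = x) (z : ℍ) :
    vv hcop u x z = u ((γ⁻¹ • z : ℍ) : ℂ) := by
  obtain ⟨h1, h2⟩ := (exists_rep hcop x).choose_spec
  unfold vv
  set δ := (exists_rep hcop x).choose
  have h3 : (δ⁻¹ • z : ℍ) = (δ⁻¹ * γ) • (γ⁻¹ • z) := by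
    rw [← mul_smul]; congr 1; group
  rw [h3]
  refine hu _ (Subgroup.mem_inf.mpr ⟨mul_mem (inv_mem h1) hγ, ?_⟩) _
  have h4 : rd p (δ⁻¹ * γ) • (OnePoint.infty : OnePoint (ZMod p)) = OnePoint.infty := by
    rw [map_mul, mul_smul, hx, map_inv, ← h2, inv_smul_smul]
  rw [OnePoint.smul_infty_eq_self_iff, rd_apply] at h4
  rw [Gamma0_mem]
  exact h4

lemma vv_smul (hcop : p.Coprime N) (hu : ∀ γ ∈ Gamma N ⊓ Gamma0 p, ∀ z : ℍ, u ((γ • z : ℍ) : ℂ) = u (z : ℂ))
    {γ : SL(2, ℤ)} (hγ : γ ∈ Gamma N) (x : OnePoint (ZMod p)) (z : ℍ) :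
    vv hcop u x (γ⁻¹ • z) = vv hcop u (rd p γ • x) z := by
  obtain ⟨h1, h2⟩ := (exists_rep hcop x).choose_spec
  have h3 := vv_eq (x := rd p γ • x) hcop hu (mul_mem hγ h1) (by rw [map_mul, mul_smul, h2]) z
  rw [h3]
  unfold vv
  rw [mul_inv_rev, mul_smul]

/-- relations between the translates -/
def Rel (hcop : p.Coprime N) (u : ℂ → ℂ) (c : OnePoint (ZMod p) → ℂ) : Prop :=
  ∀ z : ℍ, ∑ x, c x * vv hcop u x z = 0

lemma Rel.smul {hcop : p.Coprime N} (hu : ∀ γ ∈ Gamma N ⊓ Gamma0 p, ∀ z : ℍ, u ((γ • z : ℍ) : ℂ) = u (z : ℂ))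
    {c : OnePoint (ZMod p) → ℂ} (hc : Rel hcop u c) {γ : SL(2, ℤ)} (hγ : γ ∈ Gamma N) :
    Rel hcop u (fun x => c ((rd p γ)⁻¹ • x)) := by
  intro z
  rw [← hc (γ⁻¹ • z)]
  rw [← Equiv.sum_comp (MulAction.toPerm (rd p γ)) (fun x => c ((rd p γ)⁻¹ • x) * vv hcop u x z)]
  refine Finset.sum_congr rfl fun x _ => ?_
  rw [MulAction.toPerm_apply, inv_smul_smul, vv_smul hcop hu hγ]

/-- a relation with `(p + 1) c ∞ ≠ ∑ c` makes `u` invariant -/
lemma inv_of_rel {hcop : p.Coprime N} (hu : ∀ γ ∈ Gamma N ⊓ Gamma0 p, ∀ z : ℍ, u ((γ • z : ℍ) : ℂ) = u (z : ℂ))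
    {c : OnePoint (ZMod p) → ℂ} (hc : Rel hcop u c) (hS : ((p : ℂ) + 1) * c OnePoint.infty ≠ ∑ x, c x) :
    ∀ γ ∈ Gamma N, ∀ z : ℍ, u ((γ • z : ℍ) : ℂ) = u (z : ℂ) := by
  classical
  have hN := N_ne (N := N) hcop
  -- the translation and the lower unipotent matrix
  have hdT : Matrix.det !![(1 : ℤ), N; 0, 1] = 1 := by rw [Matrix.det_fin_two]; simp
  have hdL : Matrix.det !![(1 : ℤ), 0; (N : ℤ), 1] = 1 := by rw [Matrix.det_fin_two]; simp
  let T : SL(2, ℤ) := ⟨!![(1 : ℤ), N; 0, 1], hdT⟩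
  let L : SL(2, ℤ) := ⟨!![(1 : ℤ), 0; (N : ℤ), 1], hdL⟩
  have t00 : T 0 0 = 1 := rfl
  have t01 : T 0 1 = (N : ℤ) := rfl
  have t10 : T 1 0 = 0 := rfl
  have t11 : T 1 1 = 1 := rfl
  have l00 : L 0 0 = 1 := rfl
  have l01 : L 0 1 = 0 := rfl
  have l10 : L 1 0 = (N : ℤ) := rfl
  have l11 : L 1 1 = 1 := rfl
  have hT : T ∈ Gamma N := by
    rw [mem_Gamma_iff, t00, t01, t10, t11]; simp
  have hL : L ∈ Gamma N := by
    rw [mem_Gamma_iff, l00, l01, l10, l11]; simp
  have T_inf : rd p T • (OnePoint.infty : OnePoint (ZMod p)) = OnePoint.infty := by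
    rw [OnePoint.smul_infty_eq_self_iff, rd_apply, t10]; simp
  have T_coe : ∀ k : ZMod p, rd p T • (k : OnePoint (ZMod p)) = ((k + N : ZMod p) : OnePoint (ZMod p)) := by
    intro k
    rw [OnePoint.smul_some_eq_ite, rd_apply, rd_apply, rd_apply, rd_apply, t00, t01, t10, t11]
    simp
  have L_inf : rd p L • (OnePoint.infty : OnePoint (ZMod p)) = (((N : ZMod p)⁻¹ : ZMod p) : OnePoint (ZMod p)) := by
    rw [OnePoint.smul_infty_eq_ite, rd_apply, rd_apply, l00, l10]
    push_cast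
    rw [if_neg hN, one_div]
  have hTj : ∀ j : ℕ, T ^ j ∈ Gamma N := fun j => pow_mem hT j
  have Tj_inf : ∀ j : ℕ, rd p (T ^ j) • (OnePoint.infty : OnePoint (ZMod p)) = OnePoint.infty := by
    intro j
    induction j with
    | zero => simp
    | succ j ih => rw [pow_succ, map_mul, mul_smul, T_inf, ih]
  have Tj_coe : ∀ (j : ℕ) (k : ZMod p),
      rd p (T ^ j) • (k : OnePoint (ZMod p)) = ((k + j * N : ZMod p) : OnePoint (ZMod p)) := by
    intro j
    induction j with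
    | zero => intro k; simp
    | succ j ih =>
      intro k
      rw [pow_succ, map_mul, mul_smul, T_coe, ih]
      congr 1
      push_cast
      ring
  -- the average over the translations
  set a : ℂ := (p : ℂ) * c OnePoint.infty with ha
  set b : ℂ := ∑ m : ZMod p, c (m : OnePoint (ZMod p)) with hb
  have hsum : ∑ x, c x = c OnePoint.infty + b := Fintype.sum_option (fun x : Option (ZMod p) => c x)
  have hab : a - b ≠ 0 := by
    intro h
    apply hS
    rw [hsum]
    linear_combination h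
  let C : OnePoint (ZMod p) → ℂ := fun x => ∑ j : ZMod p, c ((rd p (T ^ j.val))⁻¹ • x)
  have hC : Rel hcop u C := by
    intro z
    simp only [C, Finset.sum_mul]
    rw [Finset.sum_comm]
    exact Finset.sum_eq_zero fun j _ => Rel.smul hu hc (hTj j.val) z
  have C_inf : C OnePoint.infty = a := by
    have h1 : ∀ j : ZMod p, (rd p (T ^ j.val))⁻¹ • (OnePoint.infty : OnePoint (ZMod p)) = OnePoint.infty := by
      intro j
      rw [inv_smul_eq_iff, Tj_inf]
    simp only [C, h1]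
    rw [Finset.sum_const, Finset.card_univ, ZMod.card, nsmul_eq_mul]
  have C_coe : ∀ k : ZMod p, C (k : OnePoint (ZMod p)) = b := by
    intro k
    have h1 : ∀ j : ZMod p, (rd p (T ^ j.val))⁻¹ • (k : OnePoint (ZMod p)) = ((k - j * N : ZMod p) : OnePoint (ZMod p)) := by
      intro j
      rw [inv_smul_eq_iff, Tj_coe]
      congr 1
      rw [ZMod.natCast_zmod_val]
      ring
    simp only [C, h1]
    exact Equiv.sum_comp ((Equiv.mulRight₀ (N : ZMod p) hN).trans (Equiv.subLeft k))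
      (fun m : ZMod p => c (m : OnePoint (ZMod p)))
  have key : ∀ (γ : SL(2, ℤ)), γ ∈ Gamma N → ∀ z : ℍ,
      b * ∑ x, vv hcop u x z + (a - b) * vv hcop u (rd p γ • (OnePoint.infty : OnePoint (ZMod p))) z = 0 := by
    intro γ hγ z
    have h1 := Rel.smul hu hC hγ z
    rw [← h1]
    have h2 : ∀ x : OnePoint (ZMod p), C ((rd p γ)⁻¹ • x) =
        b + (if x = rd p γ • (OnePoint.infty : OnePoint (ZMod p)) then a - b else 0) := by
      intro x
      by_cases hx : x = rd p γ • (OnePoint.infty : OnePoint (ZMod p))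
      · rw [if_pos hx, hx, inv_smul_smul, C_inf]; ring
      · rw [if_neg hx, add_zero]
        have h3 : (rd p γ)⁻¹ • x ≠ OnePoint.infty := by
          intro h4
          apply hx
          rw [← h4, smul_inv_smul]
        obtain ⟨k, hk⟩ := OnePoint.ne_infty_iff_exists.mp h3
        rw [← hk, C_coe]
    simp only [h2, add_mul, Finset.sum_add_distrib, ite_mul, zero_mul]
    rw [Finset.sum_ite_eq' Finset.univ (rd p γ • (OnePoint.infty : OnePoint (ZMod p)))]
    simp [Finset.mul_sum]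
  have hL1 : ∀ z : ℍ, vv hcop u (rd p L • (OnePoint.infty : OnePoint (ZMod p))) z = vv hcop u OnePoint.infty z := by
    intro z
    have h1 := key 1 (one_mem _) z
    have h2 := key L hL z
    rw [map_one, one_smul] at h1
    have h3 : (a - b) * (vv hcop u (rd p L • (OnePoint.infty : OnePoint (ZMod p))) z - vv hcop u OnePoint.infty z) = 0 := by
      linear_combination h2 - h1
    rcases mul_eq_zero.mp h3 with h4 | h4
    · exact absurd h4 hab
    · exact sub_eq_zero.mp h4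
  have hall : ∀ (x : OnePoint (ZMod p)) (z : ℍ), vv hcop u x z = vv hcop u OnePoint.infty z := by
    intro x z
    induction x using OnePoint.rec with
    | infty => rfl
    | coe k =>
      set j : ℕ := ((k - (N : ZMod p)⁻¹) * (N : ZMod p)⁻¹).val with hj
      have hj' : (j : ZMod p) = (k - (N : ZMod p)⁻¹) * (N : ZMod p)⁻¹ := ZMod.natCast_zmod_val _
      have h1 : rd p (T ^ j) • (rd p L • (OnePoint.infty : OnePoint (ZMod p))) = (k : OnePoint (ZMod p)) := by
        rw [L_inf, Tj_coe, hj']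
        congr 1
        field_simp
        ring
      rw [← h1, ← vv_smul hcop hu (hTj j), hL1, vv_smul hcop hu (hTj j), Tj_inf]
  intro γ hγ z
  have h1 := vv_eq hcop hu (inv_mem hγ) rfl z
  rw [inv_inv] at h1
  have h2 := vv_eq (x := OnePoint.infty) hcop hu (one_mem (Gamma N)) (by simp) z
  rw [inv_one, one_smul] at h2
  rw [← h1, hall, h2]

/-- the `p` translates attached to the finite points are linearly independent, unless `u` is invariant -/
lemma linInd (hcop : p.Coprime N) (hu : ∀ γ ∈ Gamma N ⊓ Gamma0 p, ∀ z : ℍ, u ((γ • z : ℍ) : ℂ) = u (z : ℂ))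
    (hni : ¬ ∀ γ ∈ Gamma N, ∀ z : ℍ, u ((γ • z : ℍ) : ℂ) = u (z : ℂ)) :
    LinearIndependent ℂ (fun k : ZMod p => vv hcop u (k : OnePoint (ZMod p))) := by
  rw [Fintype.linearIndependent_iff]
  intro c hc
  by_contra hne
  push Not at hne
  obtain ⟨k0, hk0⟩ := hne
  let c' : OnePoint (ZMod p) → ℂ := fun x => OnePoint.elim x 0 c
  have hc'k : ∀ k : ZMod p, c' (k : OnePoint (ZMod p)) = c k := fun k => rfl
  have hc'i : c' OnePoint.infty = 0 := rfl
  have hrel : Rel hcop u c' := by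
    intro z
    have h1 := congrFun hc z
    rw [Finset.sum_apply] at h1
    have h2 : ∑ x, c' x * vv hcop u x z = c' OnePoint.infty * vv hcop u OnePoint.infty z +
        ∑ m : ZMod p, c' (m : OnePoint (ZMod p)) * vv hcop u (m : OnePoint (ZMod p)) z :=
      Fintype.sum_option (fun x : Option (ZMod p) => c' x * vv hcop u x z)
    rw [h2, hc'i, zero_mul, zero_add]
    simpa [hc'k] using h1
  by_cases hS : ∑ x, c' x = 0
  · -- move `k0` to infinity
    obtain ⟨γ, hγ, hγk⟩ := exists_rep hcop (k0 : OnePoint (ZMod p))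
    have h1 := Rel.smul hu hrel (inv_mem hγ)
    apply hni
    refine inv_of_rel hu h1 ?_
    have h2 : ∑ x, c' ((rd p γ⁻¹)⁻¹ • x) = ∑ x, c' x := by
      exact Equiv.sum_comp (MulAction.toPerm ((rd p γ⁻¹)⁻¹)) c'
    rw [h2, hS, map_inv, inv_inv, hγk, hc'k]
    have h3 : ((p : ℂ) + 1) ≠ 0 := by exact_mod_cast (Nat.succ_ne_zero p)
    exact mul_ne_zero h3 hk0
  · apply hni
    refine inv_of_rel hu hrel ?_
    rw [hc'i, mul_zero]
    exact fun h => hS h.symm

end

/-- if `Γ(N)` has the eigenvalue `μ ≠ 0`, then `Γ(N p)`, `p` a prime not dividing `N`, has it with multiplicity at least `p` -/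
theorem tower {N p : ℕ} (hN : 0 < N) (hp : p.Prime) (hcop : p.Coprime N) {μ : ℝ} (hμ : μ ≠ 0) {g : ℂ → ℂ}
    (hg : IsEigenform (Gamma N) μ g) (hne : ∃ z : ℍ, g (z : ℂ) ≠ 0) :
    ∃ F : Fin p → ℂ → ℂ, (∀ i, IsEigenform (Gamma (N * p)) μ (F i)) ∧
      LinearIndependent ℂ (fun i => fun z : ℍ => F i (z : ℂ)) := by
  have : Fact p.Prime := ⟨hp⟩
  have h1 := SelbergD1.scale_eigen hN hp.pos hcop hg
  have h2 := noninv hN hp.one_lt hcop hμ hg hne
  have h3 := linInd (u := fun w => g ((p : ℂ) * w)) hcop h1.2.1 h2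
  let e : Fin p ≃ ZMod p := (Fintype.equivFinOfCardEq (ZMod.card p)).symm
  refine ⟨fun i w => g ((p : ℂ) * mob ((exists_rep (N := N) hcop (e i : OnePoint (ZMod p))).choose⁻¹) w),
    fun i => trans hN hp.pos hcop hg _, ?_⟩
  have h4 := h3.comp e e.injective
  convert h4 using 1
  funext i z
  simp only [Function.comp_apply, vv, mob_coe]

end Pool.Agent.DCT
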