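import Pool.Agent.DCT.NonInv
import Pool.Agent.SelbergD1.F5bb

/-!
# The translates of `g (p z)` are eigenforms of `Γ(N p)`
-/

open Set MeasureTheory UpperHalfPlane CongruenceSubgroup
open scoped MatrixGroups
open Pool.Agent.Selberg Pool.Agent.SelbergND

namespace Pool.Agent.DCT

lemma Gamma_mul_le (N p : ℕ) : Gamma (N * p) ≤ Gamma N ⊓ Gamma0 p := by
  intro γ hγ
  rw [mem_Gamma_iff] at hγ
  obtain ⟨h1, h2, h3, h4⟩ := hγ
  push_cast at h1 h2 h3 h4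
  refine Subgroup.mem_inf.mpr ⟨?_, ?_⟩
  · rw [mem_Gamma_iff]
    exact ⟨(dvd_mul_right _ _).trans h1, (dvd_mul_right _ _).trans h2, (dvd_mul_right _ _).trans h3,
      (dvd_mul_right _ _).trans h4⟩
  · rw [Gamma0_mem, ZMod.intCast_zmod_eq_zero_iff_dvd]
    exact (dvd_mul_left _ _).trans h3

/-- the translate of `g (p z)` by `δ ∈ SL₂(ℤ)` is an eigenform of `Γ(N p)` -/
theorem trans {N p : ℕ} (hN : 0 < N) (hp : 0 < p) (hcop : p.Coprime N) {μ : ℝ} {g : ℂ → ℂ}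
    (hg : IsEigenform (Gamma N) μ g) (δ : SL(2, ℤ)) :
    IsEigenform (Gamma (N * p)) μ (fun w => g ((p : ℂ) * mob δ w)) := by
  have h1 := SelbergD1.scale_eigen hN hp hcop hg
  have h2 := SelbergD1.F5bbAux.comp_mob h1 δ
  refine ⟨h2.1, ?_, h2.2.2.1, h2.2.2.2⟩
  intro γ hγ z
  simp only [mob_coe]
  have h3 : (δ • γ • z : ℍ) = (δ * γ * δ⁻¹) • (δ • z) := by
    rw [← mul_smul, ← mul_smul]
    congr 1
    group
  rw [h3]
  exact h1.2.1 _ (Gamma_mul_le N p ((Gamma_normal (N * p)).conj_mem _ hγ δ)) _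

end Pool.Agent.DCT
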